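import Pool.Agent.H97.PK.Targets

/-! GTI of the board pk_modules: ties of Gaussian profiles are null. -/

set_option autoImplicit false

namespace Pool.Agent.H31.PK

open Pool.Agent.H97.PK MeasureTheory Set Metric
open scoped InnerProductSpace

theorem gti_log {d : ℕ} {l : ℝ} {c c' y : E d} {ρ ρ' a : ℝ} (ha : 0 < a)
    (h : gau l c ρ y = a * gau l c' ρ' y) :
    2 * l * ⟪c - c', y⟫_ℝ = Real.log a + l * (ρ' ^ 2 - ρ ^ 2 + ‖c‖ ^ 2 - ‖c'‖ ^ 2) := by
  unfold gau at h
  have h1 := congrArg Real.log h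
  rw [Real.log_exp, Real.log_mul ha.ne' (Real.exp_ne_zero _), Real.log_exp,
    norm_sub_sq_real, norm_sub_sq_real] at h1
  rw [inner_sub_left, real_inner_comm y c, real_inner_comm y c']
  linarith

theorem pf_gti : T_GTI := by
  intro d hd l hl
  have hint0 : Integrable (fun y : E d => Real.exp (-l * ‖y‖ ^ 2)) := by
    have h1 := GaussianFourier.integrable_cexp_neg_mul_sq_norm_add_of_euclideanSpace (ι := Fin d)
      (b := (l : ℂ)) (by simpa using hl) 0 0
    have h2 := h1.norm
    refine h2.congr (Filter.Eventually.of_forall fun y => ?_)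
    simp only [Complex.norm_exp]
    congr 1
    have h3 : (-(l : ℂ) * (‖y‖ : ℂ) ^ 2 + 0 * ((⟪(0 : E d), y⟫_ℝ : ℝ) : ℂ)) =
        ((-l * ‖y‖ ^ 2 : ℝ) : ℂ) := by
      push_cast
      ring
    rw [h3, Complex.ofReal_re]
  refine ⟨fun c ρ => ⟨?_, ?_⟩, ?_⟩
  · unfold gau
    fun_prop
  · have h1 := (hint0.comp_sub_right c).const_mul (Real.exp (l * ρ ^ 2))
    refine h1.congr (Filter.Eventually.of_forall fun y => ?_)
    unfold gau
    beta_reduce
    rw [← Real.exp_add]
    congr 1
    ring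
  · intro c c' ρ ρ' a hcc ha
    by_cases hne : ∃ y0 : E d, gau l c ρ y0 = a * gau l c' ρ' y0
    swap
    · have h1 : {y : E d | gau l c ρ y = a * gau l c' ρ' y} = ∅ := by
        rw [eq_empty_iff_forall_notMem]
        exact fun y h => hne ⟨y, h⟩
      rw [h1, measure_empty]
    obtain ⟨y0, hy0⟩ := hne
    set K : Submodule ℝ (E d) := LinearMap.ker (innerSL ℝ (c - c')).toLinearMap with hK
    have hK1 : K ≠ ⊤ := by
      intro h
      have h1 : c - c' ∈ K := by rw [h]; exact Submodule.mem_top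
      rw [hK, LinearMap.mem_ker] at h1
      have h2 : ⟪c - c', c - c'⟫_ℝ = 0 := h1
      rw [inner_self_eq_zero] at h2
      exact hcc (sub_eq_zero.1 h2)
    have hK2 : volume (K : Set (E d)) = 0 := Measure.addHaar_submodule volume K hK1
    refine measure_mono_null (t := (fun y => y + -y0) ⁻¹' (K : Set (E d))) ?_ ?_
    · intro y hy
      have h1 := gti_log ha hy
      have h2 := gti_log ha hy0
      rw [mem_preimage, SetLike.mem_coe, hK, LinearMap.mem_ker]
      change ⟪c - c', y + -y0⟫_ℝ = 0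
      rw [← sub_eq_add_neg, inner_sub_right]
      have h3 : 2 * l * (⟪c - c', y⟫_ℝ - ⟪c - c', y0⟫_ℝ) = 0 := by rw [mul_sub]; linarith
      have h4 : (2 * l : ℝ) ≠ 0 := by positivity
      exact (mul_eq_zero.1 h3).resolve_left h4
    · rw [measure_preimage_add_right]
      exact hK2

end Pool.Agent.H31.PK
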